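import Pool.Agent.H11.NY.Targets

/-!
# Module FL of the board ny_modules (adapted from Pool/Agent/H49/NZ/FX.lean)
-/

set_option autoImplicit false

open Equiv (Perm)

namespace Pool.Agent.H11.NY2.FL

open Pool.Agent.H11.NY

/-- four indices, three excluded values -/
theorem pigeon (q p : Fin 4 → ℕ) (hq : Function.Injective q) (hp : Function.Injective p)
    (r l : ℕ) : ∃ i, q i ≠ r ∧ q i ≠ l ∧ p i ≠ l := by
  classical
  by_contra hcon
  push Not at hcon
  let f : Fin 4 → Fin 3 := fun i => if q i = r then 0 else if q i = l then 1 else 2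
  obtain ⟨i, j, hij, hf⟩ := Fintype.exists_ne_map_eq_of_card_lt f (by simp)
  have key : ∀ i, (f i = 0 → q i = r) ∧ (f i = 1 → q i = l) ∧ (f i = 2 → p i = l) := by
    intro i
    simp only [f]
    by_cases h1 : q i = r
    · simp [h1]
    · by_cases h2 : q i = l
      · rw [if_neg h1, if_pos h2]
        simp [h2]
      · rw [if_neg h1, if_neg h2]
        simp [hcon i h1 h2]
  obtain ⟨a1, a2, a3⟩ := key i
  obtain ⟨b1, b2, b3⟩ := key j
  rcases (show ∀ x : Fin 3, x = 0 ∨ x = 1 ∨ x = 2 by decide) (f i) with h | h | h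
  · exact hij (hq ((a1 h).trans (b1 (hf ▸ h)).symm))
  · exact hij (hq ((a2 h).trans (b2 (hf ▸ h)).symm))
  · exact hij (hp ((a3 h).trans (b3 (hf ▸ h)).symm))

theorem pf_fl : T_FL1 → T_OP → T_I4 → T_FL := by
  intro hFL1 hOP hI4 e c
  obtain ⟨B₁, hB₁⟩ := hFL1 e
  refine ⟨B₁, ?_⟩
  intro L Ω _ _ _ _ ψ π d hψ hperf hπ q p a h P hHP hqπ hq hP1 hP2 hP3 hP4 hopt g l hl hlπ hpl hg
    hc5 hec hB S hS hSs
  have hN : ψ.ker.Normal := inferInstance
  set Y : Subgroup L := (derivedSeries ψ.ker d).map ψ.ker.subtype with hY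
  have hYc : Nat.card Y = Nat.card (derivedSeries ψ.ker d) :=
    Nat.card_congr ((derivedSeries ψ.ker d).equivMapOfInjective _
      (Subgroup.subtype_injective _)).symm.toEquiv
  have hYn : Y.Normal := by
    rw [hY]
    infer_instance
  have hYN : Y ≤ ψ.ker := Subgroup.map_subtype_le _
  -- the common end
  have main : ∀ K₀ : Subgroup L, K₀.Normal → K₀ ≤ ψ.ker → Y ≤ K₀ →
      (∀ i, ¬ q i ∣ Nat.card K₀) → ¬ l ∣ Nat.card K₀ →
      (∀ l' : ℕ, l'.Prime → ∀ A : Subgroup L, A.Normal → K₀ < A → A ≤ ψ.ker →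
        (∀ x ∈ A, ∃ k : ℕ, x ^ (l' ^ k) ∈ K₀) →
        ∀ r : ℕ, r.Prime → ∃ i, q i ≠ r ∧ q i ≠ l' ∧ p i ≠ l') →
      c.factorial ≤ 2 * S.index := by
    intro K₀ hK hK2 hYK hqK hlK hlast
    have H := hB₁ L Ω ψ hψ hperf K₀ hK hK2 ⟨d, hYK⟩ q p a h P hHP hqK hP1 hP2 hP3 hP4 hlast
    exact hI4 L Ω ψ hψ K₀ hK hK2 l e c hl hlK H hc5 hec g hg hB S hS hSs
  rcases hopt with ⟨p₀, hp₀⟩ | hp
  · have hp₀p : p₀.Prime := by
      have := (hHP 0).2.2.2.1
      rw [(hp₀ 0).1] at this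
      exact this
    obtain ⟨K₂, hK1, hYK, hK3, hK4, hK5⟩ := hOP L p₀ ψ.ker Y hp₀p hN hYn hYN
    have hcard : ∀ r : ℕ, r.Prime → r ∣ Nat.card K₂ → r = p₀ ∨ r ∈ π := by
      intro r hr hdvd
      by_cases hrp : r = p₀
      · exact Or.inl hrp
      right
      have := Fact.mk hr
      obtain ⟨x, hx⟩ := exists_prime_orderOf_dvd_card' r hdvd
      obtain ⟨k, hk⟩ := hK4 (x : L) x.2
      have hx' : orderOf (x : L) = r := by rw [Subgroup.orderOf_coe, hx]
      have hcop : Nat.Coprime (orderOf (x : L)) (p₀ ^ k) := by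
        rw [hx']
        exact Nat.Coprime.pow_right _ ((Nat.coprime_primes hr hp₀p).2 hrp)
      have h1 : orderOf ((x : L) ^ (p₀ ^ k)) = r := by
        rw [hcop.orderOf_pow, hx']
      have h2 : r ∣ Nat.card Y := by
        rw [← h1, ← Subgroup.orderOf_mk _ hk]
        exact orderOf_dvd_natCard _
      rw [hYc] at h2
      exact hπ r hr h2
    refine main K₂ hK1 hK3 hYK ?_ ?_ ?_
    · intro i hi
      rcases hcard _ (hHP i).1 hi with h1 | h1
      · exact (hp₀ i).2 h1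
      · exact hqπ i h1
    · intro hi
      rcases hcard _ hl hi with h1 | h1
      · exact hpl 0 ((hp₀ 0).1.trans h1.symm)
      · exact hlπ h1
    · intro l' hl' A hA hKA hAN hpow r hr
      have hne : p₀ ≠ l' := by
        rintro rfl
        exact hKA.ne (hK5 A hA hKA.le hAN hpow).symm
      obtain ⟨i, h1, h2, -⟩ := pigeon q q hq hq r l'
      exact ⟨i, h1, h2, by rw [(hp₀ i).1]; exact hne⟩
  · refine main Y hYn hYN le_rfl ?_ ?_ ?_
    · intro i hi
      rw [hYc] at hi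
      exact hqπ i (hπ _ (hHP i).1 hi)
    · intro hi
      rw [hYc] at hi
      exact hlπ (hπ _ hl hi)
    · intro l' _ A _ _ _ _ r _
      exact pigeon q p hq hp r l'

end Pool.Agent.H11.NY2.FL
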