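import Pool.Agent.H11.NY.Targets

/-!
# Module GW of the board ny_modules
-/

set_option autoImplicit false

namespace Pool.Agent.H11.NY2.GW

open Pool.Agent.H11.NY

theorem pow_swap {C : Type} [Group C] (y z t : C) (hty : Commute t y) (htz : Commute t z)
    (h : y * z = t * z * y) (n : ℕ) : y ^ n * z = t ^ n * z * y ^ n := by
  induction n with
  | zero => simp
  | succ n ih =>
    calc y ^ (n + 1) * z = y ^ n * (y * z) := by rw [pow_succ, mul_assoc]
      _ = y ^ n * (t * z * y) := by rw [h]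
      _ = (y ^ n * t) * z * y := by simp only [mul_assoc]
      _ = (t * y ^ n) * z * y := by rw [(hty.pow_right n).eq]
      _ = t * (y ^ n * z) * y := by simp only [mul_assoc]
      _ = t * (t ^ n * z * y ^ n) * y := by rw [ih]
      _ = t ^ (n + 1) * z * y ^ (n + 1) := by
        rw [pow_succ' t, pow_succ y]; simp only [mul_assoc]

theorem pow_prod {C : Type} [Group C] (y z t : C) (hty : Commute t y) (htz : Commute t z)
    (h : y * z = t * z * y) (n : ℕ) : (z * y) ^ n = t ^ (n.choose 2) * z ^ n * y ^ n := by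
  induction n with
  | zero => simp
  | succ n ih =>
    have h1 := pow_swap y z t hty htz h n
    have h2 : (n + 1).choose 2 = n.choose 2 + n := by
      rw [Nat.choose_succ_succ' n 1, Nat.choose_one_right, add_comm]
    calc (z * y) ^ (n + 1) = (z * y) ^ n * (z * y) := pow_succ _ _
      _ = t ^ (n.choose 2) * z ^ n * y ^ n * (z * y) := by rw [ih]
      _ = t ^ (n.choose 2) * z ^ n * (y ^ n * z) * y := by simp only [mul_assoc]
      _ = t ^ (n.choose 2) * z ^ n * (t ^ n * z * y ^ n) * y := by rw [h1]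
      _ = t ^ (n.choose 2) * (z ^ n * t ^ n) * z * y ^ n * y := by simp only [mul_assoc]
      _ = t ^ (n.choose 2) * (t ^ n * z ^ n) * z * y ^ n * y := by
        rw [((htz.pow_left n).pow_right n).eq]
      _ = t ^ ((n + 1).choose 2) * z ^ (n + 1) * y ^ (n + 1) := by
        rw [h2, pow_add, pow_succ z, pow_succ y]; simp only [mul_assoc]

theorem choose_dvd (p l M : ℕ) (hp : p.Prime) (hM : p ∣ M) :
    p ^ l ∣ (p ^ l * M).choose 2 := by
  rw [Nat.choose_two_right]
  have h1 : 2 ∣ M * (p ^ l * M - 1) := by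
    rcases Nat.even_or_odd M with h | h
    · exact Dvd.dvd.mul_right h.two_dvd _
    · apply Dvd.dvd.mul_left
      have hpo : Odd p := Odd.of_dvd_nat h hM
      have h2 : Odd (p ^ l * M) := (hpo.pow).mul h
      obtain ⟨k, hk⟩ := h2
      exact ⟨k, by omega⟩
  obtain ⟨c, hc⟩ := h1
  refine ⟨c, ?_⟩
  rw [mul_assoc, hc]
  rw [mul_left_comm, Nat.mul_div_cancel_left _ (by norm_num)]

theorem mem_closed {C : Type} [Group C] (p : ℕ) (hp : p.Prime) (y z t : C)
    (hty : Commute t y) (htz : Commute t z) (h : y * z = t * z * y)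
    (hy : ∃ k : ℕ, y ^ (p ^ k) = 1) (hz : ∃ k : ℕ, z ^ (p ^ k) = 1) :
    ∃ k : ℕ, (z * y) ^ (p ^ k) = 1 := by
  obtain ⟨l, hl⟩ := hy
  obtain ⟨k, hk⟩ := hz
  have ht : t ^ (p ^ l) = 1 := by
    have h1 := pow_swap y z t hty htz h (p ^ l)
    rw [hl, one_mul, mul_one] at h1
    exact (mul_eq_right.1 h1.symm)
  refine ⟨l + (k + 1), ?_⟩
  rw [pow_prod y z t hty htz h]
  have h2 : t ^ ((p ^ (l + (k + 1))).choose 2) = 1 := by
    rw [pow_add]
    obtain ⟨c, hc⟩ := choose_dvd p l (p ^ (k + 1)) hp (dvd_pow_self p (Nat.succ_ne_zero k))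
    rw [hc, pow_mul, ht, one_pow]
  have h3 : y ^ (p ^ (l + (k + 1))) = 1 := by rw [pow_add p, pow_mul, hl, one_pow]
  have h4 : z ^ (p ^ (l + (k + 1))) = 1 := by
    rw [show l + (k + 1) = k + (l + 1) by omega, pow_add p, pow_mul, hk, one_pow]
  rw [h2, h3, h4]; simp

theorem core {C : Type} [Group C] (q : ℕ) (a : C) (hq : q.Prime) (haq : a ^ q = 1)
    (ha1 : a ≠ 1) (hac : ∀ x : C, a * x = x * a) (htor : ∀ x : C, ∃ k : ℕ, 0 < k ∧ x ^ k = 1)
    (S : Subgroup C) (hS : S.Normal) (hSi : Infinite S) (hSs : Group.IsSolvable S) :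
    ∃ (p : ℕ) (h : C) (P : Subgroup C), p.Prime ∧ P.Normal ∧
      (∀ x ∈ P, ∃ k : ℕ, x ^ (p ^ k) = 1) ∧ h ∈ P ∧ h ∉ Subgroup.zpowers a ∧
      (h ^ p = 1 ∨ (p = q ∧ h ^ q = a)) := by
  classical
  let D : ℕ → Subgroup C := fun j => (derivedSeries S j).map S.subtype
  have hDn : ∀ j, (D j).Normal := fun j => inferInstance
  have hD1 : ∀ j, ∀ x ∈ D j, ∀ y ∈ D j, x * y * x⁻¹ * y⁻¹ ∈ D (j + 1) := by
    rintro j _ ⟨x, hx, rfl⟩ _ ⟨y, hy, rfl⟩
    refine ⟨x * y * x⁻¹ * y⁻¹, ?_, by simp⟩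
    rw [derivedSeries_succ]
    exact Subgroup.commutator_mem_commutator hx hy
  have hafin : (Subgroup.zpowers a : Set C).Finite := by
    have : IsOfFinOrder a := isOfFinOrder_iff_pow_eq_one.2 ⟨q, hq.pos, haq⟩
    have := this.finite_zpowers
    exact this
  have hex : ∃ n, D n ≤ Subgroup.zpowers a := by
    obtain ⟨n, hn⟩ := hSs.solvable
    refine ⟨n, ?_⟩
    simp only [D]
    rw [hn, Subgroup.map_bot]; exact bot_le
  have h0 : ¬ D 0 ≤ Subgroup.zpowers a := by
    intro h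
    have h1 : D 0 = S := by
      simp only [D]
      rw [derivedSeries_zero, ← MonoidHom.range_eq_map, Subgroup.range_subtype]
    rw [h1] at h
    exact (Set.infinite_coe_iff.1 hSi) (hafin.subset h)
  obtain ⟨n, hn⟩ : ∃ n, Nat.find hex = n + 1 := by
    refine Nat.exists_eq_succ_of_ne_zero ?_
    intro h
    have := Nat.find_spec hex
    rw [h] at this
    exact h0 this
  have hnD : ¬ D n ≤ Subgroup.zpowers a := Nat.find_min hex (by omega)
  have hnD1 : D (n + 1) ≤ Subgroup.zpowers a := hn ▸ Nat.find_spec hex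
  have hcent : ∀ t ∈ Subgroup.zpowers a, ∀ x : C, Commute t x := by
    intro t ht x
    obtain ⟨k, rfl⟩ := ht
    exact Commute.zpow_left (hac x) k
  have hexp : ∀ t ∈ Subgroup.zpowers a, t ^ q = 1 := by
    intro t ht
    obtain ⟨k, rfl⟩ := ht
    rw [← zpow_natCast, ← zpow_mul, mul_comm, zpow_mul, zpow_natCast, haq, one_zpow]
  let P : ℕ → Subgroup C := fun p =>
    if hp : p.Prime then
      { carrier := {y | y ∈ D n ∧ ∃ k : ℕ, y ^ (p ^ k) = 1}
        mul_mem' := by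
          rintro z y ⟨hz, hz'⟩ ⟨hy, hy'⟩
          refine ⟨(D n).mul_mem hz hy, ?_⟩
          have ht := hnD1 (hD1 n y hy z hz)
          exact mem_closed p hp y z (y * z * y⁻¹ * z⁻¹) (hcent _ ht _) (hcent _ ht _)
            (by group) hy' hz'
        one_mem' := ⟨(D n).one_mem, 0, by simp⟩
        inv_mem' := by
          rintro y ⟨hy, k, hk⟩
          exact ⟨(D n).inv_mem hy, k, by rw [inv_pow, hk, inv_one]⟩ }
    else ⊥
  have hPmem : ∀ p, p.Prime → ∀ y, y ∈ P p ↔ y ∈ D n ∧ ∃ k : ℕ, y ^ (p ^ k) = 1 := by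
    intro p hp y
    simp only [P, dif_pos hp]
    rfl
  have hPn : ∀ p, p.Prime → (P p).Normal := by
    intro p hp
    refine ⟨fun y hy g => ?_⟩
    rw [hPmem p hp] at hy ⊢
    obtain ⟨h1, k, hk⟩ := hy
    refine ⟨(hDn n).conj_mem y h1 g, k, ?_⟩
    rw [conj_pow, hk]; simp
  -- an element of minimal order
  obtain ⟨x₀, hx₀, hx₀'⟩ := SetLike.not_le_iff_exists.1 hnD
  let A : Set ℕ := {o | ∃ w ∈ D n, w ∉ Subgroup.zpowers a ∧ orderOf w = o}
  have hA : A.Nonempty := ⟨_, x₀, hx₀, hx₀', rfl⟩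
  obtain ⟨w, hw, hwa, hwo⟩ := Nat.sInf_mem hA
  have hmin : ∀ v ∈ D n, v ∉ Subgroup.zpowers a → orderOf w ≤ orderOf v := by
    intro v hv hva
    rw [hwo]
    exact Nat.sInf_le ⟨v, hv, hva, rfl⟩
  have hopos : 0 < orderOf w := by
    obtain ⟨k, hk, hk'⟩ := htor w
    exact orderOf_pos_iff.2 (isOfFinOrder_iff_pow_eq_one.2 ⟨k, hk, hk'⟩)
  have hw1 : w ≠ 1 := fun h => hwa (h ▸ (Subgroup.zpowers a).one_mem)
  have ho1 : orderOf w ≠ 1 := fun h => hw1 (orderOf_eq_one_iff.1 h)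
  have hpow : ∀ p, p.Prime → p ∣ orderOf w → w ^ p ∈ Subgroup.zpowers a := by
    intro p hp hpd
    by_contra hcon
    have h1 := hmin (w ^ p) ((D n).pow_mem hw p) hcon
    rw [orderOf_pow_of_dvd hp.ne_zero hpd] at h1
    exact absurd (Nat.div_lt_self hopos hp.one_lt) (not_lt.2 h1)
  obtain ⟨p, hp, hpd⟩ := Nat.exists_prime_and_dvd ho1
  by_cases hpq : p = q
  · subst hpq
    have hw2 := hpow p hp hpd
    have hwP : w ∈ P p := by
      rw [hPmem p hp]
      refine ⟨hw, 2, ?_⟩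
      rw [pow_two, pow_mul]; exact hexp _ hw2
    by_cases hw3 : w ^ p = 1
    · exact ⟨p, w, P p, hp, hPn p hp, fun x hx => ((hPmem p hp x).1 hx).2, hwP, hwa,
        Or.inl hw3⟩
    · obtain ⟨j, hj⟩ := hw2
      simp only at hj
      have hpj : ¬ (p : ℤ) ∣ j := by
        rintro ⟨c, rfl⟩
        apply hw3
        rw [← hj, zpow_mul, zpow_natCast, haq, one_zpow]
      have hcop : IsCoprime (p : ℤ) j :=
        (Nat.prime_iff_prime_int.1 hp).coprime_iff_not_dvd.2 hpj
      obtain ⟨u, v, huv⟩ := hcop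
      have hwv : (w ^ v) ^ p = a := by
        rw [← zpow_natCast, ← zpow_mul, mul_comm, zpow_mul, zpow_natCast, ← hj, ← zpow_mul,
          mul_comm, show v * j = 1 - u * p by linarith, zpow_sub, zpow_one, mul_comm u,
          zpow_mul, zpow_natCast, haq, one_zpow, inv_one, mul_one]
      refine ⟨p, w ^ v, P p, hp, hPn p hp, fun x hx => ((hPmem p hp x).1 hx).2,
        (P p).zpow_mem hwP v, ?_, Or.inr ⟨rfl, hwv⟩⟩
      intro hcon
      exact ha1 (hwv ▸ hexp _ hcon)
  · have hqo : ¬ q ∣ orderOf w := by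
      intro hqd
      have h1 := hpow p hp hpd
      have h2 := hpow q hq hqd
      have hcop : IsCoprime (p : ℤ) (q : ℤ) :=
        Nat.isCoprime_iff_coprime.2 ((Nat.coprime_primes hp hq).2 hpq)
      obtain ⟨u, v, huv⟩ := hcop
      apply hwa
      have h3 : w = (w ^ p) ^ u * (w ^ q) ^ v := by
        rw [← zpow_natCast w p, ← zpow_natCast w q, ← zpow_mul, ← zpow_mul, ← zpow_add,
          mul_comm (p : ℤ), mul_comm (q : ℤ), huv, zpow_one]
      rw [h3]
      exact (Subgroup.zpowers a).mul_mem ((Subgroup.zpowers a).zpow_mem h1 u)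
        ((Subgroup.zpowers a).zpow_mem h2 v)
    have h1 : orderOf w ∣ p * q := by
      apply orderOf_dvd_of_pow_eq_one
      rw [pow_mul]; exact hexp _ (hpow p hp hpd)
    have h2 : orderOf w ∣ p :=
      (Nat.Coprime.dvd_of_dvd_mul_right
        ((Nat.Prime.coprime_iff_not_dvd hq).2 hqo).symm h1)
    have h3 : w ^ p = 1 := orderOf_dvd_iff_pow_eq_one.1 h2
    exact ⟨p, w, P p, hp, hPn p hp, fun x hx => ((hPmem p hp x).1 hx).2,
      (hPmem p hp w).2 ⟨hw, 1, by rw [pow_one]; exact h3⟩, hwa, Or.inl h3⟩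

theorem pf_gw : T_GW := by
  intro G _ q a hq haq ha1 htor H hH hHs hinf
  have hHf : H.FiniteIndex := ⟨hH⟩
  let C := Subgroup.centralizer ({a} : Set G)
  have haC : a ∈ C := by
    rw [Subgroup.mem_centralizer_iff]; intro x hx; rw [Set.mem_singleton_iff.1 hx]
  have hcomm : ∀ x ∈ C, a * x = x * a := by
    intro x hx
    exact (Subgroup.mem_centralizer_iff.1 hx) a (Set.mem_singleton a)
  have hSi : Infinite H.normalCore := by
    by_contra hcon
    rw [not_infinite_iff_finite] at hcon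
    have : Finite C := by
      have h1 : Finite (C ⧸ H.normalCore) := Subgroup.finite_quotient_of_finiteIndex
      have h2 := Subgroup.groupEquivQuotientProdSubgroup (s := H.normalCore)
      exact Finite.of_equiv _ h2.symm
    exact not_finite C
  have hSs : Group.IsSolvable H.normalCore := by
    have h1 : Group.IsSolvable H := hHs
    exact Group.isSolvable_of_isSolvable_injective
      (f := Subgroup.inclusion (Subgroup.normalCore_le H)) (Subgroup.inclusion_injective _)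
  obtain ⟨p, h, P, hp, hPn, hPp, hhP, hha, hh⟩ := core (C := C) q ⟨a, haC⟩ hq
    (Subtype.ext haq) (fun h => ha1 (congrArg Subtype.val h))
    (fun x => Subtype.ext (hcomm x x.2))
    (fun x => by
      obtain ⟨k, hk, hk'⟩ := htor x
      exact ⟨k, hk, Subtype.ext hk'⟩) H.normalCore inferInstance hSi hSs
  refine ⟨p, h, P.map C.subtype, hp, haq, ha1, ?_, ?_, ?_, ⟨h, hhP, rfl⟩, ?_, ?_⟩
  · rintro _ ⟨x, _, rfl⟩
    exact hcomm x x.2
  · rintro x hx _ ⟨y, hy, rfl⟩
    have hxC : x ∈ C := by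
      rw [Subgroup.mem_centralizer_iff]
      intro z hz
      rw [Set.mem_singleton_iff.1 hz]; exact hx
    exact ⟨⟨x, hxC⟩ * y * ⟨x, hxC⟩⁻¹, hPn.conj_mem y hy _, rfl⟩
  · rintro _ ⟨x, hx, rfl⟩
    obtain ⟨k, hk⟩ := hPp x hx
    exact ⟨k, congrArg Subtype.val hk⟩
  · rintro ⟨k, hk⟩
    exact hha ⟨k, Subtype.ext (by simpa using hk)⟩
  · rcases hh with h1 | ⟨h1, h2⟩
    · exact Or.inl (congrArg Subtype.val h1)
    · exact Or.inr ⟨h1, congrArg Subtype.val h2⟩

end Pool.Agent.H11.NY2.GW
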