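import Pool.Agent.H11.NY.Targets

/-!
# Module I2 of the board ny_modules
-/

set_option autoImplicit false

open Pool.Agent.H11.NY

namespace Pool.Agent.H11.NY2.I2

/-- a homomorphism from a perfect subgroup to a commutative group is trivial -/
theorem hom_trivial {H A : Type} [Group H] [Group A] (hA : ∀ a b : A, a * b = b * a)
    (D : Subgroup H) (hD : ⁅D, D⁆ = D) (f : D →* A) (d : D) : f d = 1 := by
  have h1 : (commutator D).map D.subtype = ⊤ ⊓ D := by
    rw [Subgroup.map_subtype_commutator, hD]; simp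
  have h2 : commutator D ≤ f.ker := by
    rw [commutator_def, Subgroup.commutator_le]
    intro x _ y _
    rw [MonoidHom.mem_ker, map_commutatorElement, commutatorElement_eq_one_iff_mul_comm]
    exact hA _ _
  have h3 : (d : H) ∈ (commutator D).map D.subtype := by
    rw [h1]; exact ⟨trivial, d.2⟩
  obtain ⟨y, hy, hyd⟩ := h3
  have h4 : y = d := Subtype.ext hyd
  rw [← h4]
  exact h2 hy

theorem pf_i2 : T_I2 := by
  intro H _ V D D' hV hVc hD hD' hDD hfix
  -- the subgroup `[V, D']`
  set W : Subgroup V := Subgroup.closure {w : V | ∃ d' ∈ D', ∃ v ∈ V,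
    (w : H) = d' * v * d'⁻¹ * v⁻¹} with hW
  have hVc' : ∀ a b : V, a * b = b * a := fun a b => Subtype.ext (hVc a a.2 b b.2)
  have hWn : W.Normal := ⟨fun n hn g => by
    rwa [hVc' g n, mul_assoc, mul_inv_cancel, mul_one]⟩
  have hWfix : ∀ d ∈ D, ∀ w ∈ W, d * (w : H) * d⁻¹ = w := by
    intro d hd w hw
    induction hw using Subgroup.closure_induction with
    | mem x hx =>
      obtain ⟨d', hd', v, hv, hx⟩ := hx
      rw [hx]
      exact hfix d hd d' hd' v hv
    | one => simp
    | mul x y _ _ hx hy =>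
      rw [Subgroup.coe_mul]
      calc d * ((x : H) * y) * d⁻¹ = (d * x * d⁻¹) * (d * y * d⁻¹) := by group
        _ = x * y := by rw [hx, hy]
    | inv x _ hx =>
      rw [Subgroup.coe_inv]
      calc d * (x : H)⁻¹ * d⁻¹ = (d * x * d⁻¹)⁻¹ := by group
        _ = (x : H)⁻¹ := by rw [hx]
  -- step 1
  have h1 : ∀ (d : H) (hd : d ∈ D) (d' : H) (hd' : d' ∈ D'),
      (⟨d * d' * d⁻¹ * d'⁻¹, hDD d hd d' hd'⟩ : V) ∈ W := by
    intro d hd d' hd'
    let f : D' →* V ⧸ W :=
      { toFun := fun x => QuotientGroup.mk (⟨d * x * d⁻¹ * (x : H)⁻¹, hDD d hd x x.2⟩ : V)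
        map_one' := by
          rw [QuotientGroup.eq_one_iff]
          have : (⟨d * ((1 : D') : H) * d⁻¹ * ((1 : D') : H)⁻¹, hDD d hd _ (1 : D').2⟩ : V) = 1 :=
            Subtype.ext (by simp)
          rw [this]; exact W.one_mem
        map_mul' := by
          intro x y
          rw [← QuotientGroup.mk_mul, QuotientGroup.eq]
          have hv := hDD d hd y y.2
          apply Subgroup.subset_closure
          refine ⟨(x : H), x.2, _, V.inv_mem hv, ?_⟩
          simp only [Subgroup.coe_mul, Subgroup.coe_inv]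
          group }
    have := hom_trivial (fun a b => by
      induction a using QuotientGroup.induction_on with | _ a => ?_
      induction b using QuotientGroup.induction_on with | _ b => ?_
      rw [← QuotientGroup.mk_mul, ← QuotientGroup.mk_mul, hVc']) D' hD' f ⟨d', hd'⟩
    exact (QuotientGroup.eq_one_iff _).1 this
  -- step 2
  intro d hd d' hd'
  let f : D →* V :=
    { toFun := fun x => (⟨x * d' * (x : H)⁻¹ * d'⁻¹, hDD x x.2 d' hd'⟩ : V)
      map_one' := Subtype.ext (by simp)
      map_mul' := by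
        intro x y
        apply Subtype.ext
        simp only [Subgroup.coe_mul]
        have h2 := hWfix x x.2 _ (h1 y y.2 d' hd')
        simp only at h2
        have h3 := hVc _ (hDD y y.2 d' hd') _ (hDD x x.2 d' hd')
        calc (x : H) * y * d' * ((x : H) * y)⁻¹ * d'⁻¹
            = (x * ((y : H) * d' * (y : H)⁻¹ * d'⁻¹) * (x : H)⁻¹) *
                (x * d' * (x : H)⁻¹ * d'⁻¹) := by group
          _ = ((y : H) * d' * (y : H)⁻¹ * d'⁻¹) * (x * d' * (x : H)⁻¹ * d'⁻¹) := by rw [h2]
          _ = _ := h3 }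
  have h4 := hom_trivial hVc' D hD f ⟨d, hd⟩
  have h5 : d * d' * d⁻¹ * d'⁻¹ = 1 := congrArg (Subtype.val : V → H) h4
  calc d * d' = (d * d' * d⁻¹ * d'⁻¹) * (d' * d) := by group
    _ = d' * d := by rw [h5, one_mul]

end Pool.Agent.H11.NY2.I2
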